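import Mathlib
import Pool.Agent.V1198.XLogX

/-!
# MP_25e654, Q1: a negative answer
-/

set_option autoImplicit false

noncomputable section

open TopologicalSpace

namespace Pool.Agent.Results.MP_25e654_an.NotBanach

section Defs

variable {X Y M : Type} [NormedAddCommGroup X] [NormedSpace ℝ X] [NormedAddCommGroup Y]
  [NormedSpace ℝ Y] [NormedAddCommGroup M] [NormedSpace ℝ M]

/-- `M` is (via the injection `j`) a linear subspace of `Y` with a larger norm. -/
def IsSubspace (j : M →L[ℝ] Y) : Prop := Function.Injective j ∧ ∀ m, ‖j m‖ ≤ ‖m‖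

/-- `φ` is linear modulo `M`. -/
def LinearMod (j : M →L[ℝ] Y) (φ : X → Y) : Prop :=
  ∀ (x y : X) (a b : ℝ), ∃ m, j m = φ (a • x + b • y) - (a • φ x + b • φ y)

/-- `φ` is a Borel map. -/
def IsBorel (φ : X → Y) : Prop := @Measurable X Y (borel X) (borel Y) φ

/-- `V = φ(X) + M`. -/
def V (j : M →L[ℝ] Y) (φ : X → Y) : Set Y := {y | ∃ x m, y = φ x + j m}

/-- Some Banach space is mapped bijectively onto `S` by a continuous linear map, that is, `S`
carries a complete norm with continuous inclusion into `Y`. -/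
def CarriesBanachNorm (S : Set Y) : Prop :=
  ∃ (W : Type) (_ : NormedAddCommGroup W) (_ : NormedSpace ℝ W) (_ : CompleteSpace W)
    (i : W →L[ℝ] Y), Function.Injective i ∧ Set.range i = S

end Defs

open Pool.Agent.V1198.XL

/-- There are separable Banach spaces `X, Y, M`, `M ⊆ Y`, and a Borel map `φ : X → Y` which is
linear modulo `M` such that `V = φ(X) + M` carries no complete norm finer than that of `Y`. -/
theorem result :
    ∃ (X : Type) (_ : NormedAddCommGroup X) (_ : NormedSpace ℝ X) (_ : CompleteSpace X)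
      (_ : SeparableSpace X) (Y : Type) (_ : NormedAddCommGroup Y) (_ : NormedSpace ℝ Y)
      (_ : CompleteSpace Y) (_ : SeparableSpace Y) (M : Type) (_ : NormedAddCommGroup M)
      (_ : NormedSpace ℝ M) (_ : CompleteSpace M) (_ : SeparableSpace M) (j : M →L[ℝ] Y)
      (φ : X → Y), IsSubspace j ∧ LinearMod j φ ∧ IsBorel φ ∧ ¬ CarriesBanachNorm (V j φ) := by
  refine ⟨E1, inferInstance, inferInstance, inferInstance, inferInstance, E1 × E1, inferInstance,
    inferInstance, inferInstance, inferInstance, E1, inferInstance, inferInstance, inferInstance,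
    inferInstance, (ContinuousLinearMap.inr ℝ E1 E1).comp D, fun x => (x, Dpsi x),
    ⟨?_, ?_⟩, ?_, ?_, ?_⟩
  · intro x y h
    exact D_injective (congrArg Prod.snd h)
  · intro m
    show ‖((0, D m) : E1 × E1)‖ ≤ ‖m‖
    rw [Prod.norm_mk, norm_zero]
    exact max_le (norm_nonneg _) (norm_D_le m)
  · intro x y a b
    obtain ⟨m, hm⟩ := Dpsi_linear_mod a b x y
    refine ⟨m, ?_⟩
    show ((0, D m) : E1 × E1) = (a • x + b • y, Dpsi (a • x + b • y)) -
      (a • (x, Dpsi x) + b • (y, Dpsi y))
    rw [hm]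
    ext1
    · show (0 : E1) = (a • x + b • y) - (a • x + b • y)
      rw [sub_self]
    · rfl
  · show @Measurable E1 (E1 × E1) (borel E1) (borel (E1 × E1)) fun x => (x, Dpsi x)
    borelize E1
    rw [← BorelSpace.measurable_eq (α := E1 × E1)]
    have h := measurable_Dpsi
    rw [← BorelSpace.measurable_eq (α := E1)] at h
    exact measurable_id.prodMk h
  · rintro ⟨W, _, _, _, i, hi, hV⟩
    refine core i hi (ContinuousLinearMap.inl ℝ E1 E1) fun x => ?_
    rw [hV, ← exists_D_eq_Dpsi_iff]
    constructor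
    · rintro ⟨x', m, h⟩
      have h1 : x = x' + 0 := congrArg Prod.fst h
      have h2 : (0 : E1) = Dpsi x' + D m := congrArg Prod.snd h
      rw [add_zero] at h1
      subst h1
      exact ⟨-m, by rw [map_neg, eq_comm, eq_neg_iff_add_eq_zero, ← h2]⟩
    · rintro ⟨m, hm⟩
      refine ⟨x, -m, ?_⟩
      show ((x, 0) : E1 × E1) = (x, Dpsi x) + (0, D (-m))
      rw [map_neg, hm, Prod.mk_add_mk, add_zero, add_neg_cancel]

end Pool.Agent.Results.MP_25e654_an.NotBanach
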